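import Pool.Agent.H42.SN.CaseII2

set_option autoImplicit false

/-!
# MP_7ecdd4_nt: the heights and radicals of admissible `n`-tuples, `n ≥ 5`

For `n ≥ 5` put `κ = 3/5` if `n` is odd and `κ = 5/7` if `n` is even.  For all large `H` and all `R` with
`H^(κ+δ) ≤ R ≤ H^(n-δ)` there is an admissible `n`-tuple, without vanishing subsums, of height in
`[(1-ε)H, H]` and radical in `[(1-ε)R, R]`.
-/

namespace Pool.Agent.Results.MP_7ecdd4_nt.EveryHeightAndRadical

open Finset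

/-- Admissible tuples: non-zero, pairwise coprime, with sum zero. -/
def Admissible {n : ℕ} (x : Fin n → ℤ) : Prop :=
  (∀ i, x i ≠ 0) ∧ (∀ i j, i ≠ j → Int.gcd (x i) (x j) = 1) ∧ ∑ i, x i = 0

/-- No non-empty proper subsum vanishes. -/
def NoVanishingSubsum {n : ℕ} (x : Fin n → ℤ) : Prop :=
  ∀ S : Finset (Fin n), S.Nonempty → S ≠ univ → ∑ i ∈ S, x i ≠ 0

/-- The radical of the product of the entries. -/
def rad {n : ℕ} (x : Fin n → ℤ) : ℕ := ∏ p ∈ (∏ i, x i).natAbs.primeFactors, p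

/-- The largest absolute value of the entries. -/
def height {n : ℕ} (x : Fin n → ℤ) : ℕ := univ.sup fun i => (x i).natAbs

/-- The exponent: `3/5` for odd `n`, `5/7` for even `n`. -/
noncomputable def κ (n : ℕ) : ℝ := if Odd n then 3 / 5 else 5 / 7

theorem κ_pos (n : ℕ) : 0 < κ n := by
  unfold κ; split_ifs <;> norm_num

theorem κ_lt (n : ℕ) : κ n < 1 := by
  unfold κ; split_ifs <;> norm_num

theorem core {n : ℕ} (hn : 5 ≤ n) {δ ε : ℝ} (hδ : 0 < δ) (hε : 0 < ε) :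
    ∃ H₀ : ℝ, ∀ H R : ℝ, H₀ ≤ H → H ^ (κ n + δ) ≤ R → R ≤ H ^ ((n : ℝ) - δ) →
      ∃ x : Fin n → ℤ, Admissible x ∧ NoVanishingSubsum x ∧
        (1 - ε) * H ≤ height x ∧ (height x : ℝ) ≤ H ∧ (1 - ε) * R ≤ rad x ∧ (rad x : ℝ) ≤ R := by
  obtain ⟨H₀, -, h⟩ := H42.SN.main hn hδ hε
  refine ⟨H₀, fun H R hH h1 h2 => ?_⟩
  obtain ⟨x, ⟨a1, a2, a3⟩, x2, x3, x4, x5, x6⟩ := h H R hH h1 h2
  exact ⟨x, ⟨a1, fun i j hij => Int.isCoprime_iff_gcd_eq_one.mp (a2 i j hij), a3⟩, x2, x3, x4, x5, x6⟩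

theorem curve {n : ℕ} (hn : 5 ≤ n) {L : ℝ} (hL1 : 1 / n < L) (hL2 : L < 1 / κ n) {c : ℝ} (hc : 0 < c)
    {ε : ℝ} (hε : 0 < ε) (N : ℕ) :
    ∃ x : Fin n → ℤ, Admissible x ∧ NoVanishingSubsum x ∧ N < height x ∧
      |(height x : ℝ) / (rad x : ℝ) ^ L - c| < ε := by
  have hn0 : (0 : ℝ) < n := by exact_mod_cast (by omega : 0 < n)
  have hL0 : 0 < L := lt_trans (by positivity) hL1
  have hκ := κ_pos n
  have e1 : κ n < 1 / L := by
    rw [lt_div_iff₀ hL0]
    rw [lt_div_iff₀ hκ] at hL2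
    linarith
  have e2 : 1 / L < n := by
    rw [div_lt_iff₀ hL0]
    rw [div_lt_iff₀ hn0] at hL1
    linarith
  set δ : ℝ := min ((1 / L - κ n) / 2) ((n - 1 / L) / 2) with hδ
  have hδ0 : 0 < δ := lt_min (by linarith) (by linarith)
  have hδ1 : κ n + δ ≤ 1 / L - δ := by
    have := min_le_left ((1 / L - κ n) / 2) ((n - 1 / L) / 2)
    linarith
  have hδ2 : 1 / L + δ ≤ n - δ := by
    have := min_le_right ((1 / L - κ n) / 2) ((n - 1 / L) / 2)
    linarith
  -- the choice of `ε'`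
  obtain ⟨η, hη0, hη1, hη2, hη3⟩ : ∃ η : ℝ, 0 < η ∧ η < 1 / 2 ∧ c - ε < (1 - η) * c ∧
      c * (1 - η) ^ (-L) < c + ε := by
    have hcont : ContinuousAt (fun t : ℝ => c * (1 - t) ^ (-L)) 0 := by
      refine continuousAt_const.mul ?_
      exact (continuousAt_const.sub continuousAt_id).rpow_const (Or.inl (by norm_num))
    have h0 : (fun t : ℝ => c * (1 - t) ^ (-L)) 0 = c := by simp
    have h1 : ∀ᶠ t : ℝ in nhds 0, c * (1 - t) ^ (-L) < c + ε := by
      have := hcont.eventually_lt_const (u := c + ε) (by rw [h0]; linarith)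
      exact this
    have hcont2 : ContinuousAt (fun t : ℝ => (1 - t) * c) 0 :=
      (continuousAt_const.sub continuousAt_id).mul continuousAt_const
    have h2 : ∀ᶠ t : ℝ in nhds 0, c - ε < (1 - t) * c := by
      have := hcont2.eventually_const_lt (u := c - ε) (by simp; linarith)
      exact this
    obtain ⟨r, hr, h3⟩ := Metric.eventually_nhds_iff.mp (h1.and h2)
    refine ⟨min (r / 2) (1 / 4), by positivity, lt_of_le_of_lt (min_le_right _ _) (by norm_num), ?_, ?_⟩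
    · refine (h3 ?_).2
      rw [Real.dist_eq, sub_zero, abs_of_nonneg (by positivity)]
      exact lt_of_le_of_lt (min_le_left _ _) (by linarith)
    · refine (h3 ?_).1
      rw [Real.dist_eq, sub_zero, abs_of_nonneg (by positivity)]
      exact lt_of_le_of_lt (min_le_left _ _) (by linarith)
  obtain ⟨H₀, h⟩ := core hn hδ0 hη0
  have hd : ∀ᶠ H : ℝ in Filter.atTop, H₀ ≤ H ∧ 1 ≤ H ∧ 2 * ((N : ℝ) + 1) ≤ H ∧ c ^ (1 / L) ≤ H ^ δ ∧
      (1 / c) ^ (1 / L) ≤ H ^ δ := by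
    refine (Filter.eventually_ge_atTop _).and ((Filter.eventually_ge_atTop _).and
      ((Filter.eventually_ge_atTop _).and ?_))
    exact ((tendsto_rpow_atTop hδ0).eventually_ge_atTop _).and ((tendsto_rpow_atTop hδ0).eventually_ge_atTop _)
  obtain ⟨H, g1, g2, g3, g4, g5⟩ := hd.exists
  have hH0 : 0 < H := by linarith
  set R : ℝ := (H / c) ^ (1 / L) with hR
  have hR0 : 0 < R := Real.rpow_pos_of_pos (by positivity) _
  have hRL : R ^ L = H / c := by
    rw [hR, ← Real.rpow_mul (by positivity), one_div_mul_cancel hL0.ne', Real.rpow_one]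
  have hRe : R = H ^ (1 / L) / c ^ (1 / L) := by rw [hR, Real.div_rpow hH0.le hc.le]
  have hR1 : H ^ (κ n + δ) ≤ R := by
    rw [hRe, le_div_iff₀ (by positivity)]
    calc H ^ (κ n + δ) * c ^ (1 / L) ≤ H ^ (1 / L - δ) * H ^ δ :=
          mul_le_mul (Real.rpow_le_rpow_of_exponent_le g2 hδ1) g4 (by positivity) (by positivity)
      _ = H ^ (1 / L) := by rw [← Real.rpow_add hH0]; congr 1; ring
  have hR2 : R ≤ H ^ ((n : ℝ) - δ) := by
    have e : R = H ^ (1 / L) * (1 / c) ^ (1 / L) := by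
      rw [hRe, Real.div_rpow (by norm_num) hc.le, Real.one_rpow]; ring
    rw [e]
    calc H ^ (1 / L) * (1 / c) ^ (1 / L) ≤ H ^ (1 / L) * H ^ δ :=
          mul_le_mul_of_nonneg_left g5 (by positivity)
      _ = H ^ (1 / L + δ) := by rw [← Real.rpow_add hH0]
      _ ≤ H ^ ((n : ℝ) - δ) := Real.rpow_le_rpow_of_exponent_le g2 hδ2
  obtain ⟨x, x1, x2, x3, x4, x5, x6⟩ := h H R g1 hR1 hR2
  have hr0 : (0 : ℝ) < rad x := lt_of_lt_of_le (mul_pos (by linarith) hR0) x5
  have hrL : (0 : ℝ) < (rad x : ℝ) ^ L := Real.rpow_pos_of_pos hr0 _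
  have hrL1 : (rad x : ℝ) ^ L ≤ R ^ L := Real.rpow_le_rpow hr0.le x6 hL0.le
  have hrL2 : (1 - η) ^ L * R ^ L ≤ (rad x : ℝ) ^ L := by
    rw [← Real.mul_rpow (by linarith) hR0.le]
    exact Real.rpow_le_rpow (mul_nonneg (by linarith) hR0.le) x5 hL0.le
  refine ⟨x, x1, x2, ?_, ?_⟩
  · have : (N : ℝ) < height x := by nlinarith
    exact_mod_cast this
  · have hη' : 0 < 1 - η := by linarith
    have u1 : (height x : ℝ) / (rad x : ℝ) ^ L ≤ c * (1 - η) ^ (-L) := by
      rw [div_le_iff₀ hrL]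
      calc (height x : ℝ) ≤ H := x4
        _ = c * (1 - η) ^ (-L) * ((1 - η) ^ L * R ^ L) := by
          rw [hRL, Real.rpow_neg hη'.le]
          have : (1 - η) ^ L ≠ 0 := (Real.rpow_pos_of_pos hη' _).ne'
          field_simp
        _ ≤ c * (1 - η) ^ (-L) * (rad x : ℝ) ^ L := mul_le_mul_of_nonneg_left hrL2 (by positivity)
    have u2 : (1 - η) * c ≤ (height x : ℝ) / (rad x : ℝ) ^ L := by
      rw [le_div_iff₀ hrL]
      calc (1 - η) * c * (rad x : ℝ) ^ L ≤ (1 - η) * c * R ^ L :=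
            mul_le_mul_of_nonneg_left hrL1 (by positivity)
        _ = (1 - η) * H := by rw [hRL]; field_simp
        _ ≤ height x := x3
    rw [abs_lt]
    constructor <;> linarith

theorem limit {n : ℕ} (hn : 5 ≤ n) {L : ℝ} (hL1 : 1 / n ≤ L) (hL2 : L ≤ 1 / κ n) {ε : ℝ} (hε : 0 < ε) (N : ℕ) :
    ∃ x : Fin n → ℤ, Admissible x ∧ NoVanishingSubsum x ∧ N < height x ∧
      |Real.log (height x) / Real.log (rad x) - L| < ε := by
  have hn0 : (0 : ℝ) < n := by exact_mod_cast (by omega : 0 < n)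
  have hn5 : (5 : ℝ) ≤ n := by exact_mod_cast hn
  have hκ := κ_pos n
  have hκ1 := κ_lt n
  have hgap : 1 / (n : ℝ) < 1 / κ n := one_div_lt_one_div_of_lt hκ (by linarith)
  -- an interior exponent
  obtain ⟨M, m1, m2, m3⟩ : ∃ M : ℝ, 1 / n < M ∧ M < 1 / κ n ∧ |M - L| < ε / 2 := by
    have h1 : max (1 / (n : ℝ)) (L - ε / 2) < min (1 / κ n) (L + ε / 2) := by
      apply max_lt <;> apply lt_min <;> linarith
    obtain ⟨M, h2, h3⟩ := exists_between h1
    have a1 := le_max_left (1 / (n : ℝ)) (L - ε / 2)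
    have a2 := le_max_right (1 / (n : ℝ)) (L - ε / 2)
    have a3 := min_le_left (1 / κ n) (L + ε / 2)
    have a4 := min_le_right (1 / κ n) (L + ε / 2)
    exact ⟨M, by linarith, by linarith, abs_lt.mpr ⟨by linarith, by linarith⟩⟩
  have hM0 : 0 < M := lt_trans (by positivity) m1
  -- the size
  set N' : ℕ := max N ⌈Real.exp (M * (2 / ε + 1) + 1)⌉₊ with hN'
  obtain ⟨x, x1, x2, x3, x4⟩ := curve hn m1 m2 (c := 1) one_pos (ε := 1 / 2) (by norm_num) N'
  have hx3 : Real.exp (M * (2 / ε + 1) + 1) < height x := by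
    have h1 : Real.exp (M * (2 / ε + 1) + 1) ≤ (⌈Real.exp (M * (2 / ε + 1) + 1)⌉₊ : ℝ) := Nat.le_ceil _
    have h2 : ((⌈Real.exp (M * (2 / ε + 1) + 1)⌉₊ : ℕ) : ℝ) ≤ (N' : ℝ) := by
      exact_mod_cast le_max_right N _
    have h3 : (N' : ℝ) < height x := by exact_mod_cast x3
    linarith
  have hh0 : (0 : ℝ) < height x := lt_trans (Real.exp_pos _) hx3
  have hlh : M * (2 / ε + 1) + 1 < Real.log (height x) := by
    rw [Real.lt_log_iff_exp_lt hh0]; exact hx3
  have hr0 : (0 : ℝ) < rad x := by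
    have : 0 < rad x := H42.SN.radN_pos _
    exact_mod_cast this
  have hrM : (0 : ℝ) < (rad x : ℝ) ^ M := Real.rpow_pos_of_pos hr0 _
  rw [abs_lt] at x4
  have b1 : (height x : ℝ) < 3 / 2 * (rad x : ℝ) ^ M := by
    have := x4.2
    rw [sub_lt_iff_lt_add, div_lt_iff₀ hrM] at this
    linarith
  have b2 : 1 / 2 * (rad x : ℝ) ^ M < (height x : ℝ) := by
    have := x4.1
    rw [lt_sub_iff_add_lt, lt_div_iff₀ hrM] at this
    linarith
  have l1 : Real.log (height x) ≤ M * Real.log (rad x) + 1 := by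
    have h1 := Real.log_le_log hh0 b1.le
    rw [Real.log_mul (by norm_num) hrM.ne', Real.log_rpow hr0] at h1
    have h2 : Real.log (3 / 2) ≤ 3 / 2 - 1 := Real.log_le_sub_one_of_pos (by norm_num)
    linarith
  have l2 : M * Real.log (rad x) - 1 ≤ Real.log (height x) := by
    have h1 := Real.log_le_log (by positivity) b2.le
    rw [Real.log_mul (by norm_num) hrM.ne', Real.log_rpow hr0] at h1
    have h2 : -1 ≤ Real.log (1 / 2) := by
      have h3 : Real.log 2 ≤ 2 - 1 := Real.log_le_sub_one_of_pos (by norm_num)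
      have h4 : Real.log (1 / 2) = -Real.log 2 := by rw [one_div, Real.log_inv]
      rw [h4]; linarith
    linarith
  have lr : 2 / ε + 1 < Real.log (rad x) := by
    have h1 : M * (2 / ε + 1) < M * Real.log (rad x) := by linarith
    exact lt_of_mul_lt_mul_left h1 hM0.le
  have lr0 : 0 < Real.log (rad x) := lt_trans (by positivity) lr
  have l3 : |Real.log (height x) / Real.log (rad x) - M| < ε / 2 := by
    have h1 : Real.log (height x) / Real.log (rad x) - M =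
        (Real.log (height x) - M * Real.log (rad x)) / Real.log (rad x) := by field_simp
    rw [h1, abs_div, abs_of_pos lr0, div_lt_iff₀ lr0]
    have h2 : |Real.log (height x) - M * Real.log (rad x)| ≤ 1 := by
      rw [abs_le]; constructor <;> linarith
    have h3 : ε / 2 * (2 / ε) = 1 := by field_simp
    have h4 : ε / 2 * (2 / ε) < ε / 2 * Real.log (rad x) :=
      mul_lt_mul_of_pos_left (by linarith) (by positivity)
    linarith
  refine ⟨x, x1, x2, lt_of_le_of_lt (le_max_left _ _) x3, ?_⟩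
  rw [abs_lt] at l3 m3 ⊢
  constructor <;> linarith

/-- **All heights and radicals.** -/
theorem result (n : ℕ) (hn : 5 ≤ n) :
    -- all pairs (height, radical)
    (∀ δ > (0 : ℝ), ∀ ε > (0 : ℝ), ∃ H₀ : ℝ, ∀ H R : ℝ, H₀ ≤ H → H ^ (κ n + δ) ≤ R → R ≤ H ^ ((n : ℝ) - δ) →
      ∃ x : Fin n → ℤ, Admissible x ∧ NoVanishingSubsum x ∧
        (1 - ε) * H ≤ height x ∧ (height x : ℝ) ≤ H ∧ (1 - ε) * R ≤ rad x ∧ (rad x : ℝ) ≤ R) ∧
    -- the limit points of height / rad ^ L, for every L strictly between 1 / n and 1 / κ(n)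
    (∀ L : ℝ, 1 / n < L → L < 1 / κ n → ∀ c > (0 : ℝ), ∀ ε > (0 : ℝ), ∀ N : ℕ,
      ∃ x : Fin n → ℤ, Admissible x ∧ NoVanishingSubsum x ∧ N < height x ∧
        |(height x : ℝ) / (rad x : ℝ) ^ L - c| < ε) ∧
    -- every point of [1 / n, 1 / κ(n)] is a limit point of log height / log rad
    (∀ L : ℝ, 1 / n ≤ L → L ≤ 1 / κ n → ∀ ε > (0 : ℝ), ∀ N : ℕ,
      ∃ x : Fin n → ℤ, Admissible x ∧ NoVanishingSubsum x ∧ N < height x ∧
        |Real.log (height x) / Real.log (rad x) - L| < ε) :=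
  ⟨fun _ hδ _ hε => core hn hδ hε,
    fun _ h1 h2 _ hc _ hε N => curve hn h1 h2 hc hε N,
    fun _ h1 h2 _ hε N => limit hn h1 h2 hε N⟩

end Pool.Agent.Results.MP_7ecdd4_nt.EveryHeightAndRadical
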