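import Pool.Agent.H42.EX.Final
import Pool.Agent.H42.EX.Fib12
import Pool.Agent.H42.EX.Fib
import Pool.Agent.H42.EX.F3
import Pool.Agent.H42.EX.Hold
import Pool.Agent.H42.EX.Mom
import Pool.Agent.H42.EX.Comb
import Pool.Agent.H42.EX.Exa
import Pool.Agent.H42.EX.Low

set_option autoImplicit false

/-!
# MP_7ecdd4_nt: the exact order of the number of exceptions, up to the natural barrier

Let `N(M, X)` be the number of admissible `n`-tuples with `max |x_j| ≤ X` and `max |x_j| > rad ^ M`.  For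
`n ≥ 5` and `1/n < M < 1/Λ`, `Λ = max (n-2) (3n/4)` (so `Λ = n - 2` for `n ≥ 8`), we show that
`N(M, X) = X ^ (1/M - 1 + o(1))`.  (Beyond `1/(n-2)` such an upper bound implies a weak form of the abc
conjecture for `h + a = b` with small `h`: see `SharpUpToWeakAbc`.)
-/

namespace Pool.Agent.Results.MP_7ecdd4_nt.ExactOrderUpToBarrier

open Filter Topology

/-- `x` is an admissible tuple: non-zero pairwise coprime integers with sum zero. -/
def Admissible {n : ℕ} (x : Fin n → ℤ) : Prop :=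
  (∀ i, x i ≠ 0) ∧ (∀ i j, i ≠ j → Int.gcd (x i) (x j) = 1) ∧ ∑ i, x i = 0

/-- No sub-sum over a non-empty proper set of indices vanishes. -/
def NoVanishingSubsum {n : ℕ} (x : Fin n → ℤ) : Prop :=
  ∀ I : Finset (Fin n), I.Nonempty → I ≠ Finset.univ → ∑ i ∈ I, x i ≠ 0

/-- The radical of `x_1 ⋯ x_n`: the product of the primes dividing it. -/
def rad {n : ℕ} (x : Fin n → ℤ) : ℕ := ∏ p ∈ (∏ i, x i).natAbs.primeFactors, p

/-- The size `max |x_j|`. -/
def size {n : ℕ} (x : Fin n → ℤ) : ℕ := Finset.univ.sup fun i => (x i).natAbs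

/-- The admissible tuples of size at most `X` which violate `max |x_j| ≤ rad ^ M`. -/
def Exceptions (n : ℕ) (M X : ℝ) : Set (Fin n → ℤ) :=
  {x | Admissible x ∧ (size x : ℝ) ≤ X ∧ (rad x : ℝ) ^ M < size x}

/-- The admissible tuples of radical at most `X` with `rad ^ M ≤ max |x_j| < rad ^ L`. -/
def Between (n : ℕ) (M L X : ℝ) : Set (Fin n → ℤ) :=
  {x | Admissible x ∧ (rad x : ℝ) ≤ X ∧ (rad x : ℝ) ^ M ≤ size x ∧ (size x : ℝ) < (rad x : ℝ) ^ L}

/-- `Λ = max (n - 2) (3 n / 4)`. -/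
noncomputable def Lam (n : ℕ) : ℝ := max ((n : ℝ) - 2) (3 * n / 4)

open Pool.Agent.Q38.NC Pool.Agent.Q38.AE.Cov Pool.Agent.H42.EX

theorem adm_iff {n : ℕ} (x : Fin n → ℤ) : Admissible x ↔ Adm x :=
  ⟨fun h => ⟨h.1, h.2.1, h.2.2⟩, fun h => ⟨h.ne, h.cop, h.sum⟩⟩

theorem size_pos {n : ℕ} (hn : 4 ≤ n) {x : Fin n → ℤ} (h : Admissible x) : (0 : ℝ) < size x := by
  exact_mod_cast ht_pos (by omega) ((adm_iff x).1 h)

theorem rad_pos' {n : ℕ} (x : Fin n → ℤ) : (0 : ℝ) < rad x := by exact_mod_cast RX_pos x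

theorem exc_eq {n : ℕ} (hn : 4 ≤ n) {M : ℝ} (hM : 0 < M) (Q : (Fin n → ℤ) → Prop) (X : ℝ) :
    {x ∈ Exceptions n M X | Q x} = Z (fun x => Adm x ∧ Q x) M X := by
  ext x
  constructor
  · rintro ⟨⟨h1, h2, h3⟩, h4⟩
    have hs := size_pos hn h1
    refine ⟨⟨(adm_iff x).1 h1, h4⟩, ?_, ?_⟩
    · show Real.exp (Real.log (size x)) ≤ X
      rw [Real.exp_log hs]
      exact h2
    · show Real.log (rad x) < 1 / M * Real.log (size x)
      have h5 := Real.log_lt_log (Real.rpow_pos_of_pos (rad_pos' x) M) h3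
      rw [Real.log_rpow (rad_pos' x)] at h5
      rw [one_div, ← div_eq_inv_mul, lt_div_iff₀ hM]
      linarith
  · rintro ⟨⟨h1, h4⟩, h2, h3⟩
    have h1' := (adm_iff x).2 h1
    have hs := size_pos hn h1'
    refine ⟨⟨h1', ?_, ?_⟩, h4⟩
    · have h5 : Real.exp (Real.log (size x)) ≤ X := h2
      rwa [Real.exp_log hs] at h5
    · have h5 : Real.log (rad x) < 1 / M * Real.log (size x) := h3
      rw [one_div, ← div_eq_inv_mul, lt_div_iff₀ hM] at h5
      rw [← Real.log_lt_log_iff (Real.rpow_pos_of_pos (rad_pos' x) M) hs,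
        Real.log_rpow (rad_pos' x)]
      linarith

theorem bet_eq {n : ℕ} (hn : 4 ≤ n) (M L : ℝ) (Q : (Fin n → ℤ) → Prop) (X : ℝ) :
    {x ∈ Between n M L X | Q x} = F (fun x => Adm x ∧ Q x) lh lr M L X := by
  ext x
  have hr := rad_pos' x
  constructor
  · rintro ⟨⟨h1, h2, h3, h4⟩, h5⟩
    have hs := size_pos hn h1
    refine ⟨⟨(adm_iff x).1 h1, h5⟩, ?_, ?_, ?_⟩
    · show Real.exp (Real.log (rad x)) ≤ X
      rw [Real.exp_log hr]
      exact h2
    · show M * Real.log (rad x) ≤ Real.log (size x)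
      rw [← Real.log_rpow hr]
      exact Real.log_le_log (Real.rpow_pos_of_pos hr M) h3
    · show Real.log (size x) < L * Real.log (rad x)
      rw [← Real.log_rpow hr]
      exact Real.log_lt_log hs h4
  · rintro ⟨⟨h1, h5⟩, h2, h3, h4⟩
    have h1' := (adm_iff x).2 h1
    have hs := size_pos hn h1'
    refine ⟨⟨h1', ?_, ?_, ?_⟩, h5⟩
    · have h6 : Real.exp (Real.log (rad x)) ≤ X := h2
      rwa [Real.exp_log hr] at h6
    · have h6 : M * Real.log (rad x) ≤ Real.log (size x) := h3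
      rw [← Real.log_le_log_iff (Real.rpow_pos_of_pos hr M) hs, Real.log_rpow hr]
      exact h6
    · have h6 : Real.log (size x) < L * Real.log (rad x) := h4
      rw [← Real.log_lt_log_iff hs (Real.rpow_pos_of_pos hr L), Real.log_rpow hr]
      exact h6

/-- The block bound. -/
theorem BLK_Lam (n : ℕ) (hn : 5 ≤ n) : BLK n (Lam n - 1) := by
  have hF : S_F3 := F3.main (Hold.main Mom.main) Fib12.pair
  refine blk (Fib12.f1 Fib.main) Fib12.f2 hF Comb.main hn ?_ ?_
  · have := le_max_left ((n : ℝ) - 2) (3 * n / 4)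
    unfold Lam
    linarith
  · have := le_max_right ((n : ℝ) - 2) (3 * n / 4)
    unfold Lam
    linarith

theorem Lam_bounds (n : ℕ) (hn : 5 ≤ n) : (n : ℝ) - 2 ≤ Lam n ∧ Lam n < n ∧ 3 ≤ Lam n := by
  have hnR : (5 : ℝ) ≤ n := by exact_mod_cast hn
  unfold Lam
  refine ⟨le_max_left _ _, max_lt (by linarith) (by linarith), ?_⟩
  exact le_trans (by linarith) (le_max_left _ _)

/-- **The number of exceptions.**  Let `n ≥ 5` and `Λ = max (n - 2) (3 n / 4)`; so `Λ = n - 2` for `n ≥ 8`.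
Let `1/n < M < 1/Λ`.

(1) The number of the admissible `n`-tuples with `max |x_j| ≤ X` which violate
`max |x_j| ≤ rad (x_1 ⋯ x_n) ^ M` is equal to `X ^ (1/M - 1 + o(1))`, and so is the number of those among them
without a vanishing subsum.

(2) For `M < L ≤ (1 - M)/(Λ - 1)` the number of the admissible `n`-tuples with `rad ≤ X` and
`rad ^ M ≤ max |x_j| < rad ^ L` is finite for `X ≥ 1` and equal to `X ^ (1 - M + o(1))`, and so is the number of
those among them without a vanishing subsum. -/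
theorem result (n : ℕ) (hn : 5 ≤ n) :
    (8 ≤ n → Lam n = (n : ℝ) - 2) ∧
    ∀ M : ℝ, 1 / (n : ℝ) < M → M < 1 / Lam n →
      -- (1)
      (Tendsto (fun X : ℝ => Real.log ((Exceptions n M X).ncard : ℝ) / Real.log X) atTop
        (𝓝 (1 / M - 1)) ∧
      Tendsto (fun X : ℝ =>
        Real.log (({x ∈ Exceptions n M X | NoVanishingSubsum x}).ncard : ℝ) / Real.log X) atTop
        (𝓝 (1 / M - 1))) ∧
      -- (2)
      ∀ L : ℝ, M < L → L ≤ (1 - M) / (Lam n - 1) →
        (∀ X : ℝ, 1 ≤ X → (Between n M L X).Finite) ∧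
        Tendsto (fun X : ℝ => Real.log ((Between n M L X).ncard : ℝ) / Real.log X) atTop
          (𝓝 (1 - M)) ∧
        Tendsto (fun X : ℝ =>
          Real.log (({x ∈ Between n M L X | NoVanishingSubsum x}).ncard : ℝ) / Real.log X) atTop
          (𝓝 (1 - M)) := by
  have hn4 : 4 ≤ n := by omega
  have hnR : (5 : ℝ) ≤ n := by exact_mod_cast hn
  obtain ⟨b1, b2, b3⟩ := Lam_bounds n hn
  have hlow : ∀ M : ℝ, 1 / (n : ℝ) < M → M < 1 / (Lam n - 1 + 1) → ∀ ε : ℝ, 0 < ε → ∀ᶠ B : ℝ in atTop,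
      ∃ G : Finset (Fin n → ℤ), (∀ x ∈ G, Adm x ∧ NV x ∧ (ht x : ℝ) ≤ B ∧ (RX x : ℝ) < (ht x : ℝ) ^ (1 / M)) ∧
        B ^ (1 / M - 1 - ε) ≤ (G.card : ℝ) := by
    intro M h1 h2 ε hε
    have hM : 0 < M := lt_trans (by positivity) h1
    rw [sub_add_cancel, lt_one_div hM (by linarith)] at h2
    rw [one_div_lt (by linarith) hM] at h1
    exact low_all Low.main hn (by linarith) h1 hε
  have hexa := fun P hP hP' => Exa.main n (Lam n - 1) hn (by linarith) (by linarith) (BLK_Lam n hn) hlow P hP hP'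
  have eT : ∀ M : ℝ, 0 < M → ∀ X : ℝ, Exceptions n M X = Z (fun x => Adm x ∧ True) M X := by
    intro M hM X
    rw [← exc_eq hn4 hM (fun _ => True) X]
    ext x
    simp
  have eT' : ∀ M L X : ℝ, Between n M L X = F (fun x => Adm x ∧ True) lh lr M L X := by
    intro M L X
    rw [← bet_eq hn4 M L (fun _ => True) X]
    ext x
    simp
  obtain ⟨-, ex⟩ := hexa (fun x => Adm x ∧ True) (fun _ h => h.1) (fun _ h _ => ⟨h, trivial⟩)
  obtain ⟨-, ex'⟩ := hexa (fun x => Adm x ∧ NoVanishingSubsum x) (fun _ h => h.1) (fun _ h h' => ⟨h, h'⟩)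
  refine ⟨?_, ?_⟩
  · intro h8
    have : (8 : ℝ) ≤ n := by exact_mod_cast h8
    unfold Lam
    exact max_eq_left (by linarith)
  · intro M h1 h2
    have hM : 0 < M := lt_trans (by positivity) h1
    have h2' : M < 1 / (Lam n - 1 + 1) := by rwa [sub_add_cancel]
    obtain ⟨e1, e2⟩ := ex M h1 h2'
    obtain ⟨e1', e2'⟩ := ex' M h1 h2'
    refine ⟨⟨?_, ?_⟩, fun L hML hL => ?_⟩
    · simp only [eT M hM]
      exact e1
    · simp only [exc_eq hn4 hM]
      exact e1'
    · obtain ⟨f1, f2⟩ := e2 L hML hL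
      obtain ⟨-, f2'⟩ := e2' L hML hL
      refine ⟨fun X hX => ?_, ?_, ?_⟩
      · rw [eT']
        exact f1 X hX
      · simp only [eT']
        exact f2
      · simp only [bet_eq hn4]
        exact f2'

end Pool.Agent.Results.MP_7ecdd4_nt.ExactOrderUpToBarrier
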