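import Pool.Agent.H42.SN.Count3

set_option autoImplicit false

/-!
# MP_7ecdd4_nt: many exceptions to the strong `n`-conjecture with exponent `M`

The number of admissible `n`-tuples of height at most `X` with `height > rad ^ M` is `X ^ (1/M - 1 + o(1))` for
`M < 1/(n-1)`.  Here lower bounds are proved which show that for all larger exponents from `D/(2n-2)` on, up to the
largest exponent for which exceptions are known, there are many more (`D = 5` for odd `n`, `D = 7` for even `n`).
-/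

namespace Pool.Agent.Results.MP_7ecdd4_nt.MoreExceptionsThanExpected

open Finset Filter Topology

/-- Admissible tuples: non-zero, pairwise coprime, with sum zero. -/
def Admissible {n : ℕ} (x : Fin n → ℤ) : Prop :=
  (∀ i, x i ≠ 0) ∧ (∀ i j, i ≠ j → Int.gcd (x i) (x j) = 1) ∧ ∑ i, x i = 0

/-- No non-empty proper subsum vanishes. -/
def NoVanishingSubsum {n : ℕ} (x : Fin n → ℤ) : Prop :=
  ∀ S : Finset (Fin n), S.Nonempty → S ≠ univ → ∑ i ∈ S, x i ≠ 0

/-- The radical of the product of the entries. -/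
def rad {n : ℕ} (x : Fin n → ℤ) : ℕ := ∏ p ∈ (∏ i, x i).natAbs.primeFactors, p

/-- The largest absolute value of the entries. -/
def height {n : ℕ} (x : Fin n → ℤ) : ℕ := univ.sup fun i => (x i).natAbs

/-- The tuples without vanishing subsums of height at most `X` that violate `height ≤ rad ^ M`. -/
def Exceptions (n : ℕ) (M X : ℝ) : Set (Fin n → ℤ) :=
  {x | Admissible x ∧ NoVanishingSubsum x ∧ (height x : ℝ) ≤ X ∧ (rad x : ℝ) ^ M < height x}

/-- `5` for odd `n`, `7` for even `n`. -/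
noncomputable def D (n : ℕ) : ℝ := if Odd n then 5 else 7

/-- `n - 3` for odd `n`, `n - 4` for even `n`. -/
noncomputable def m (n : ℕ) : ℝ := if Odd n then n - 3 else n - 4

/-- The exponent of the lower bound, for `u = 1 / M`. -/
noncomputable def g (n : ℕ) (u : ℝ) : ℝ :=
  min (u - 1 + 2 / D n) (1 / D n + (1 - 1 / m n) * (u - 1 + 1 / D n))

theorem finite (n : ℕ) (M X : ℝ) : (Exceptions n M X).Finite := by
  have h : (Set.univ.pi fun _ : Fin n => Set.Icc (-⌊X⌋) ⌊X⌋).Finite :=
    Set.Finite.pi fun _ => Set.finite_Icc _ _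
  refine h.subset ?_
  rintro x ⟨-, -, hx, -⟩ i -
  have h1 : (x i).natAbs ≤ height x := Finset.le_sup (f := fun i => (x i).natAbs) (mem_univ i)
  have h2 : ((x i).natAbs : ℝ) ≤ X := le_trans (by exact_mod_cast h1) hx
  rw [Nat.cast_natAbs, Int.cast_abs] at h2
  have h3 := abs_le.mp h2
  have h4 : -x i ≤ ⌊X⌋ := Int.le_floor.mpr (by push_cast; linarith)
  exact ⟨neg_le.mp h4, Int.le_floor.mpr h3.2⟩

theorem transfer {n : ℕ} {M : ℝ} (hM : 0 < M) {c : ℝ} {X : ℝ} {F : Finset (Fin n → ℤ)} (hc : c ≤ F.card)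
    (hF : ∀ x ∈ F, H42.SN.Adm x ∧ H42.SN.NVS x ∧ (H42.SN.size x : ℝ) ≤ X ∧
      (H42.SN.radN (∏ i, x i) : ℝ) < (H42.SN.size x : ℝ) ^ (1 / M)) :
    c ≤ ((Exceptions n M X).ncard : ℝ) := by
  refine hc.trans ?_
  have h : F.card ≤ (Exceptions n M X).ncard := by
    rw [← Set.ncard_coe_finset]
    refine Set.ncard_le_ncard ?_ (finite n M X)
    intro x hx
    obtain ⟨⟨a1, a2, a3⟩, h2, h3, h4⟩ := hF x (by simpa using hx)
    refine ⟨⟨a1, fun i j hij => Int.isCoprime_iff_gcd_eq_one.mp (a2 i j hij), a3⟩, h2, h3, ?_⟩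
    have h5 : (0 : ℝ) ≤ (rad x : ℝ) := by positivity
    have h6 : (0 : ℝ) ≤ (height x : ℝ) := by positivity
    calc (rad x : ℝ) ^ M < ((height x : ℝ) ^ (1 / M)) ^ M := Real.rpow_lt_rpow h5 h4 hM
      _ = height x := by rw [← Real.rpow_mul h6, one_div_mul_cancel hM.ne', Real.rpow_one]
  exact_mod_cast h

/-- The choice of the parameters. -/
theorem params {a b r t u ε : ℝ} (ha : 0 < a) (ht : 0 ≤ t) (hr : r = 1 - 1 / (t + 2)) (hu : b - a < u)
    (hu' : u < b + (t + 2)) (hε : 0 < ε) :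
    ∃ lam τ : ℝ, 0 < lam ∧ lam < a ∧ 0 < τ ∧ τ < 1 ∧ (b - a) + lam + (t + 2) * τ < u ∧
      min (u - b + a) (a + r * (u - b)) - ε ≤ lam + (t + 1) * τ - ε / 2 := by
  have h2 : 0 < t + 2 := by linarith
  rcases le_or_gt u b with h | h
  · set η : ℝ := min (ε / (8 * (t + 2))) (min ((u - (b - a)) / (4 * (t + 2))) (1 / 2)) with hη
    have hη0 : 0 < η := lt_min (by positivity) (lt_min (div_pos (by linarith) (by positivity)) (by norm_num))
    have e1 : η * (8 * (t + 2)) ≤ ε := by
      have := min_le_left (ε / (8 * (t + 2))) (min ((u - (b - a)) / (4 * (t + 2))) (1 / 2))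
      rwa [← hη, le_div_iff₀ (by positivity)] at this
    have e2 : η * (4 * (t + 2)) ≤ u - (b - a) := by
      have h3 : η ≤ (u - (b - a)) / (4 * (t + 2)) := (min_le_right _ _).trans (min_le_left _ _)
      rwa [le_div_iff₀ (by positivity)] at h3
    have e3 : η ≤ 1 / 2 := (min_le_right _ _).trans (min_le_right _ _)
    refine ⟨u - (b - a) - 2 * (t + 2) * η, η, ?_, ?_, hη0, by linarith, ?_, ?_⟩
    · nlinarith
    · nlinarith [mul_pos h2 hη0]
    · nlinarith [mul_pos h2 hη0]
    · have := min_le_left (u - b + a) (a + r * (u - b))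
      nlinarith [mul_pos h2 hη0, mul_nonneg ht hη0.le]
  · set η : ℝ := min (ε / 2) (a / 2) with hη
    have hη0 : 0 < η := lt_min (by positivity) (by positivity)
    have e1 : η ≤ ε / 2 := min_le_left _ _
    have e2 : η ≤ a / 2 := min_le_right _ _
    have e3 : (t + 2) * ((u - b) / (t + 2)) = u - b := by field_simp
    refine ⟨a - η, (u - b) / (t + 2), by linarith, by linarith, div_pos (by linarith) h2, ?_, ?_, ?_⟩
    · rw [div_lt_one h2]; linarith
    · rw [e3]; linarith
    · have h3 := min_le_right (u - b + a) (a + r * (u - b))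
      have e4 : (t + 1) * ((u - b) / (t + 2)) = r * (u - b) := by rw [hr]; field_simp; ring
      rw [e4]
      linarith

theorem lower {n : ℕ} (hn : 5 ≤ n) {M : ℝ} (hM : 0 < M) (h1 : 1 - 2 / D n < 1 / M)
    (h2 : 1 / M < 1 - 1 / D n + m n) {ε : ℝ} (hε : 0 < ε) :
    ∀ᶠ X : ℝ in atTop, X ^ (g n (1 / M) - ε) ≤ ((Exceptions n M X).ncard : ℝ) := by
  rcases Nat.even_or_odd n with h | h
  · obtain ⟨t, rfl⟩ : ∃ t, n = 4 + t + 2 := by
      refine ⟨n - 6, ?_⟩
      obtain ⟨u, hu⟩ := h
      omega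
    have ht : Even t := by
      obtain ⟨u, hu⟩ := h
      exact ⟨u - 3, by omega⟩
    have hD : D (4 + t + 2) = 7 := by
      unfold D; rw [if_neg (by rwa [Nat.not_odd_iff_even])]
    have hm : m (4 + t + 2) = t + 2 := by
      unfold m; rw [if_neg (by rwa [Nat.not_odd_iff_even])]; push_cast; ring
    rw [hD] at h1 h2
    rw [hm] at h2
    obtain ⟨lam, τ, p1, p2, p3, p4, p5, p6⟩ := params (a := 1 / 7) (b := 6 / 7) (r := 1 - 1 / ((t : ℝ) + 2))
      (t := t) (u := 1 / M) (ε := ε) (by norm_num) (by positivity) rfl (by linarith) (by linarith) hε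
    have hg : g (4 + t + 2) (1 / M) = min (1 / M - 6 / 7 + 1 / 7) (1 / 7 + (1 - 1 / ((t : ℝ) + 2)) * (1 / M - 6 / 7)) := by
      unfold g
      rw [hD, hm]
      congr 1
      · ring
      · congr 2; ring
    have hc := H42.SN.count (by norm_num) H42.SN.evenCore ht p1 (by push_cast; linarith) p3 p4
      (u := 1 / M) (by push_cast; linarith) (half_pos hε)
    filter_upwards [hc, eventually_ge_atTop (1 : ℝ)] with X hX hX1
    obtain ⟨F, hF1, hF2⟩ := hX
    refine transfer hM (le_trans ?_ hF1) hF2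
    apply Real.rpow_le_rpow_of_exponent_le hX1
    rw [hg]
    exact p6
  · obtain ⟨t, rfl⟩ : ∃ t, n = 3 + t + 2 := ⟨n - 5, by omega⟩
    have ht : Even t := by
      obtain ⟨u, hu⟩ := h
      exact ⟨u - 2, by omega⟩
    have hD : D (3 + t + 2) = 5 := by
      unfold D; rw [if_pos h]
    have hm : m (3 + t + 2) = t + 2 := by
      unfold m; rw [if_pos h]; push_cast; ring
    rw [hD] at h1 h2
    rw [hm] at h2
    obtain ⟨lam, τ, p1, p2, p3, p4, p5, p6⟩ := params (a := 1 / 5) (b := 4 / 5) (r := 1 - 1 / ((t : ℝ) + 2))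
      (t := t) (u := 1 / M) (ε := ε) (by norm_num) (by positivity) rfl (by linarith) (by linarith) hε
    have hg : g (3 + t + 2) (1 / M) = min (1 / M - 4 / 5 + 1 / 5) (1 / 5 + (1 - 1 / ((t : ℝ) + 2)) * (1 / M - 4 / 5)) := by
      unfold g
      rw [hD, hm]
      congr 1
      · ring
      · congr 2; ring
    have hc := H42.SN.count (by norm_num) H42.SN.oddCore ht p1 (by push_cast; linarith) p3 p4
      (u := 1 / M) (by push_cast; linarith) (half_pos hε)
    filter_upwards [hc, eventually_ge_atTop (1 : ℝ)] with X hX hX1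
    obtain ⟨F, hF1, hF2⟩ := hX
    refine transfer hM (le_trans ?_ hF1) hF2
    apply Real.rpow_le_rpow_of_exponent_le hX1
    rw [hg]
    exact p6

/-- **More exceptions than expected.** -/
theorem result (n : ℕ) (hn : 5 ≤ n) :
    (∀ M X : ℝ, (Exceptions n M X).Finite) ∧
    -- the lower bound
    (∀ M : ℝ, 0 < M → 1 - 2 / D n < 1 / M → 1 / M < 1 - 1 / D n + m n → ∀ ε > (0 : ℝ),
      ∀ᶠ X : ℝ in atTop, X ^ (g n (1 / M) - ε) ≤ ((Exceptions n M X).ncard : ℝ)) ∧
    -- it is larger than the expected order for `D / (2 n - 2) < M < D / (D - 2)`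
    (∀ M : ℝ, D n / (2 * n - 2) < M → M < D n / (D n - 2) → ∃ δ : ℝ, 0 < δ ∧
      ∀ᶠ X : ℝ in atTop, X ^ (max 0 (1 / M - 1) + δ) ≤ ((Exceptions n M X).ncard : ℝ)) := by
  refine ⟨finite n, fun M hM h1 h2 ε hε => lower hn hM h1 h2 hε, ?_⟩
  intro M hM1 hM2
  have hn5 : (5 : ℝ) ≤ n := by exact_mod_cast hn
  have hDpos : 0 < D n := by unfold D; split_ifs <;> norm_num
  have hD2 : 0 < D n - 2 := by unfold D; split_ifs <;> norm_num
  have hM : 0 < M := lt_trans (div_pos hDpos (by linarith)) hM1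
  have hu1 : 1 - 2 / D n < 1 / M := by
    rw [lt_div_iff₀ hM]
    rw [lt_div_iff₀ hD2] at hM2
    have : (1 - 2 / D n) * M = M * (D n - 2) / D n := by field_simp
    rw [this, div_lt_one hDpos]
    exact hM2
  have hu2 : 1 / M < (2 * n - 2) / D n := by
    rw [div_lt_div_iff₀ hM hDpos]
    rw [div_lt_iff₀ (by linarith)] at hM1
    linarith
  have key : 1 / M < 1 - 1 / D n + m n ∧ max 0 (1 / M - 1) < g n (1 / M) := by
    set u : ℝ := 1 / M with hu
    rcases Nat.even_or_odd n with h | h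
    · have hn6 : 6 ≤ n := by
        obtain ⟨v, hv⟩ := h
        omega
      have hn6' : (6 : ℝ) ≤ n := by exact_mod_cast hn6
      have hD : D n = 7 := by unfold D; rw [if_neg (by rwa [Nat.not_odd_iff_even])]
      have hm : m n = n - 4 := by unfold m; rw [if_neg (by rwa [Nat.not_odd_iff_even])]
      unfold g
      rw [hD, hm]
      rw [hD] at hu1 hu2
      have hm0 : (0 : ℝ) < n - 4 := by linarith
      have hu2' : 7 * u < 2 * n - 2 := by
        rw [lt_div_iff₀ (by norm_num)] at hu2; linarith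
      refine ⟨by linarith, ?_⟩
      have e1 : 1 / ((n : ℝ) - 4) * (u - 6 / 7) < 2 / 7 := by
        rw [one_div_mul_eq_div, div_lt_iff₀ hm0]
        linarith
      have e2 : 1 / ((n : ℝ) - 4) ≤ 1 / 2 := by
        apply one_div_le_one_div_of_le <;> linarith
      have e3 : 0 < 1 / ((n : ℝ) - 4) := by positivity
      have e4 : (1 - 1 / ((n : ℝ) - 4)) * (u - 1 + 1 / 7) = (u - 6 / 7) - 1 / ((n : ℝ) - 4) * (u - 6 / 7) := by ring
      apply max_lt
      · apply lt_min
        · linarith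
        · rw [e4]
          nlinarith
      · apply lt_min
        · linarith
        · rw [e4]; linarith
    · have hD : D n = 5 := by unfold D; rw [if_pos h]
      have hm : m n = n - 3 := by unfold m; rw [if_pos h]
      unfold g
      rw [hD, hm]
      rw [hD] at hu1 hu2
      have hm0 : (0 : ℝ) < n - 3 := by linarith
      have hu2' : 5 * u < 2 * n - 2 := by
        rw [lt_div_iff₀ (by norm_num)] at hu2; linarith
      refine ⟨by linarith, ?_⟩
      have e1 : 1 / ((n : ℝ) - 3) * (u - 4 / 5) < 2 / 5 := by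
        rw [one_div_mul_eq_div, div_lt_iff₀ hm0]
        linarith
      have e2 : 1 / ((n : ℝ) - 3) ≤ 1 / 2 := by
        apply one_div_le_one_div_of_le <;> linarith
      have e3 : 0 < 1 / ((n : ℝ) - 3) := by positivity
      have e4 : (1 - 1 / ((n : ℝ) - 3)) * (u - 1 + 1 / 5) = (u - 4 / 5) - 1 / ((n : ℝ) - 3) * (u - 4 / 5) := by ring
      apply max_lt
      · apply lt_min
        · linarith
        · rw [e4]
          nlinarith
      · apply lt_min
        · linarith
        · rw [e4]; linarith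
  obtain ⟨k1, k2⟩ := key
  refine ⟨(g n (1 / M) - max 0 (1 / M - 1)) / 2, by linarith, ?_⟩
  have h3 := lower hn hM hu1 k1 (ε := (g n (1 / M) - max 0 (1 / M - 1)) / 2) (by linarith)
  filter_upwards [h3] with X hX
  have e : max 0 (1 / M - 1) + (g n (1 / M) - max 0 (1 / M - 1)) / 2 =
      g n (1 / M) - (g n (1 / M) - max 0 (1 / M - 1)) / 2 := by ring
  rw [e]
  exact hX

end Pool.Agent.Results.MP_7ecdd4_nt.MoreExceptionsThanExpected
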