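import Pool.Agent.H42.EX.Blk3
import Pool.Agent.H42.EX.Bar2
import Pool.Agent.H42.EX.Comb2
import Pool.Agent.H42.EX.C4
import Pool.Agent.H42.EX.F0
import Pool.Agent.H42.EX.PP
import Pool.Agent.H42.EX.PF
import Pool.Agent.H42.EX.PC
import Pool.Agent.H42.EX.Plp
import Pool.Agent.H42.EX.Size
import Pool.Agent.H42.EX.Num
import Pool.Agent.H42.EX.Comb3
import Pool.Agent.H42.EX.Num4
import Pool.Agent.H42.EX.Comb4
import Pool.Agent.H42.EX.Fib12
import Pool.Agent.H42.EX.Fib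
import Pool.Agent.H42.EX.F3
import Pool.Agent.H42.EX.Hold
import Pool.Agent.H42.EX.Mom

set_option autoImplicit false

/-!
# MP_7ecdd4_nt: the number of exceptions, bounds which are sharp up to a weak abc conjecture

Let `N(M, X)` be the number of admissible `n`-tuples with `max |x_j| ≤ X` and `max |x_j| > rad ^ M`.  For
`n ≥ 5` and every `M > 1/n` we show that `N(M, X)` is smaller than the trivial bound `X ^ ((n-1)/(nM) + ε)` by a
power of `X`.  For `n ≥ 30` and all `0 < M ≤ (n - 23)/32` we show that `N(M, X)` is at most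
`X ^ (max (1/M - 1) ((n-3)/((n-2)M)) + ε)`; for `M ≥ 1/(n-2)` any power saving over this bound would give a
power lower bound for `rad (a (a + h))` for all large `a` and small `h`.
-/

namespace Pool.Agent.Results.MP_7ecdd4_nt.SharpUpToWeakAbc

open Filter Topology

/-- `x` is an admissible tuple: non-zero pairwise coprime integers with sum zero. -/
def Admissible {n : ℕ} (x : Fin n → ℤ) : Prop :=
  (∀ i, x i ≠ 0) ∧ (∀ i j, i ≠ j → Int.gcd (x i) (x j) = 1) ∧ ∑ i, x i = 0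

/-- No sub-sum over a non-empty proper set of indices vanishes. -/
def NoVanishingSubsum {n : ℕ} (x : Fin n → ℤ) : Prop :=
  ∀ I : Finset (Fin n), I.Nonempty → I ≠ Finset.univ → ∑ i ∈ I, x i ≠ 0

/-- The radical of `x_1 ⋯ x_n`: the product of the primes dividing it. -/
def rad {n : ℕ} (x : Fin n → ℤ) : ℕ := ∏ p ∈ (∏ i, x i).natAbs.primeFactors, p

/-- The size `max |x_j|`. -/
def size {n : ℕ} (x : Fin n → ℤ) : ℕ := Finset.univ.sup fun i => (x i).natAbs

/-- The admissible tuples of size at most `X` which violate `max |x_j| ≤ rad ^ M`. -/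
def Exceptions (n : ℕ) (M X : ℝ) : Set (Fin n → ℤ) :=
  {x | Admissible x ∧ (size x : ℝ) ≤ X ∧ (rad x : ℝ) ^ M < size x}

/-- The exponent `E(M)`. -/
noncomputable def expo (n : ℕ) (M : ℝ) : ℝ :=
  max (max (1 / M - 1) (((n : ℝ) - 3) / (((n : ℝ) - 2) * M)))
    (min (2 + ((n : ℝ) - 4) / (n * M))
      (((n : ℝ) - 1) / (n * M) - (1 / (n * M)) ^ (3 / 2 : ℝ) / (16 * n)))

open Pool.Agent.Q38.NC Pool.Agent.H42.EX

theorem finite_exc {n : ℕ} (M X : ℝ) : (Exceptions n M X).Finite := by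
  have h : (Set.univ.pi fun _ : Fin n => Set.Icc (-⌊X⌋) ⌊X⌋).Finite :=
    Set.Finite.pi fun _ => Set.finite_Icc _ _
  refine h.subset ?_
  rintro x ⟨-, hx, -⟩ i -
  have h1 : (x i).natAbs ≤ size x := Finset.le_sup (f := fun i => (x i).natAbs) (Finset.mem_univ i)
  have h2 : ((x i).natAbs : ℝ) ≤ X := le_trans (by exact_mod_cast h1) hx
  rw [Nat.cast_natAbs, Int.cast_abs] at h2
  have h3 := abs_le.mp h2
  have h4 : -x i ≤ ⌊X⌋ := Int.le_floor.mpr (by push_cast; linarith)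
  exact ⟨neg_le.mp h4, Int.le_floor.mpr h3.2⟩

/-- A bound for the blocks gives a bound for the number of exceptions. -/
theorem up {n : ℕ} (hn : 5 ≤ n) {M g : ℝ} (hM : 0 < M) (hg : 0 ≤ g) (hb : BLK2 n (1 / M) g) {E : ℝ}
    (hE : g ≤ E) {ε : ℝ} (hε : 0 < ε) : ∃ C : ℝ, ∀ X : ℝ, 1 ≤ X → (Exceptions n M X).Finite ∧
      ((Exceptions n M X).ncard : ℝ) ≤ C * X ^ (E + ε) := by
  obtain ⟨C, hC0, hC⟩ := up_of_blk (by omega) (by positivity) hg hb hε
  refine ⟨C, fun X hX => ⟨finite_exc M X, ?_⟩⟩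
  have hfin := finite_exc (n := n) M X
  have h1 := hC X hX hfin.toFinset (by
    intro x hx
    rw [Set.Finite.mem_toFinset] at hx
    obtain ⟨⟨a1, a2, a3⟩, h2, h3⟩ := hx
    refine ⟨⟨a1, a2, a3⟩, h2, ?_⟩
    show (rad x : ℝ) < (size x : ℝ) ^ (1 / M)
    have h5 : (0 : ℝ) ≤ (rad x : ℝ) := by positivity
    have h6 : (0 : ℝ) ≤ (rad x : ℝ) ^ M := by positivity
    calc (rad x : ℝ) = ((rad x : ℝ) ^ M) ^ (1 / M) := by
          rw [← Real.rpow_mul h5, mul_one_div_cancel hM.ne', Real.rpow_one]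
      _ < (size x : ℝ) ^ (1 / M) := Real.rpow_lt_rpow h6 h3 (by positivity))
  rw [← Set.ncard_eq_toFinset_card _ hfin] at h1
  refine h1.trans ?_
  exact mul_le_mul_of_nonneg_left (Real.rpow_le_rpow_of_exponent_le hX (by linarith)) hC0

/-- The block bound with the second combinatorial lemma. -/
theorem old {n : ℕ} (hn : 5 ≤ n) {lam g : ℝ} (hlam : 0 ≤ lam) (h1 : lam - 1 ≤ g)
    (h2 : ((n : ℝ) - 3) / ((n : ℝ) - 2) * lam ≤ g) (h3 : 2 + ((n : ℝ) - 4) / n * lam ≤ g) : BLK2 n lam g :=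
  fun _ hδ => blk2 (Fib12.f1 Fib.main) Fib12.f2 (F3.main (Hold.main Mom.main) Fib12.pair) Comb2.main hn
    hlam h1 h2 h3 hδ

/-- The block bound with the new combinatorial lemmas. -/
theorem new {n : ℕ} (hn : 5 ≤ n) {lam g : ℝ} (hg : 0 ≤ g) (hc : Comb n lam g) : BLK2 n lam g :=
  blk3 PP.main (PF.main F0.main) (PC.main C4.main) hn hg hc

/-- **The number of exceptions: bounds which are sharp up to a weak abc conjecture.**  Let `n ≥ 5`.

(1) For all `M > 0` and `ε > 0` the number of the admissible `n`-tuples with `max |x_j| ≤ X` which violate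
`max |x_j| ≤ rad (x_1 ⋯ x_n) ^ M` is finite and at most `C X ^ (E + ε)`, where `E` is the maximum of `1/M - 1`,
`(n-3)/((n-2)M)` and the smaller one of `2 + (n-4)/(nM)` and `(n-1)/(nM) - (nM) ^ (-3/2) / (16n)`.

(2) Let `n ≥ 30` and `0 < M ≤ (n-23)/32`, or `n ≥ 8` and `0 < M ≤ (3n-8)/(2n(n-2))`.  Then this number is at
most `C X ^ (max (1/M - 1) ((n-3)/((n-2)M)) + ε)`.

(3) Let `M ≥ 1/(n-2)` (so that the maximum in (2) is `(n-3)/((n-2)M)`) and `0 < η ≤ (n-3)/((n-2)M)`, and suppose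
that for every `ε > 0` at most `C X ^ ((n-3)/((n-2)M) - η + ε)` tuples without vanishing subsums violate the
inequality. Then for every `ε > 0` there is `δ > 0` such that for all large `a` and all `h ≥ 1` coprime to `a` with
`h ≤ a ^ (1/((n-2)M) - η/(n-3) + δ)` and `h ≡ n mod 2` the radical of `a (a + h)` is at least
`a ^ ((n-2)/(n-3) η - ε)`. -/
theorem result (n : ℕ) (hn : 5 ≤ n) :
    -- (1)
    (∀ M : ℝ, 0 < M → ∀ ε : ℝ, 0 < ε → ∃ C : ℝ, ∀ X : ℝ, 1 ≤ X → (Exceptions n M X).Finite ∧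
      ((Exceptions n M X).ncard : ℝ) ≤ C * X ^ (expo n M + ε)) ∧
    -- (2)
    (∀ M : ℝ, 0 < M →
      ((30 ≤ n ∧ M ≤ ((n : ℝ) - 23) / 32) ∨ (8 ≤ n ∧ M ≤ (3 * (n : ℝ) - 8) / (2 * n * ((n : ℝ) - 2)))) →
      ∀ ε : ℝ, 0 < ε → ∃ C : ℝ, ∀ X : ℝ, 1 ≤ X → ((Exceptions n M X).ncard : ℝ) ≤
          C * X ^ (max (1 / M - 1) (((n : ℝ) - 3) / (((n : ℝ) - 2) * M)) + ε)) ∧
    -- (3)
    (∀ M : ℝ, 1 / ((n : ℝ) - 2) ≤ M → ∀ η : ℝ, 0 < η → η ≤ ((n : ℝ) - 3) / (((n : ℝ) - 2) * M) →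
      (∀ ε : ℝ, 0 < ε → ∃ C : ℝ, ∀ X : ℝ, 1 ≤ X →
        (({x ∈ Exceptions n M X | NoVanishingSubsum x}).ncard : ℝ) ≤
          C * X ^ (((n : ℝ) - 3) / (((n : ℝ) - 2) * M) - η + ε)) →
      ∀ ε : ℝ, 0 < ε → ∃ δ : ℝ, 0 < δ ∧ ∃ a₀ : ℕ, ∀ a : ℕ, a₀ ≤ a → ∀ h : ℕ, 1 ≤ h →
        (h : ℝ) ≤ (a : ℝ) ^ (1 / (((n : ℝ) - 2) * M) - η / ((n : ℝ) - 3) + δ) → Nat.Coprime a h →
        Even (n + h) → (a : ℝ) ^ (((n : ℝ) - 2) / ((n : ℝ) - 3) * η - ε) ≤
          ((∏ p ∈ (a * (a + h)).primeFactors, p : ℕ) : ℝ)) := by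
  have hnR : (5 : ℝ) ≤ n := by exact_mod_cast hn
  have hn0 : (0 : ℝ) < n := by linarith
  have hn1 : (0 : ℝ) < (n : ℝ) - 1 := by linarith
  have hn2 : (0 : ℝ) < (n : ℝ) - 2 := by linarith
  have hn3 : (0 : ℝ) < (n : ℝ) - 3 := by linarith
  have hn4 : (0 : ℝ) < (n : ℝ) - 4 := by linarith
  have e1 : ∀ M : ℝ, ((n : ℝ) - 3) / ((n : ℝ) - 2) * (1 / M) = ((n : ℝ) - 3) / (((n : ℝ) - 2) * M) := by
    intro M
    rw [div_mul_div_comm, mul_one]
  have e2 : ∀ M : ℝ, ((n : ℝ) - 4) / n * (1 / M) = ((n : ℝ) - 4) / (n * M) := by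
    intro M
    rw [div_mul_div_comm, mul_one]
  refine ⟨?_, ?_, ?_⟩
  · intro M hM ε hε
    have hlam : 0 ≤ 1 / M := by positivity
    have hE1 : 1 / M - 1 ≤ expo n M := (le_max_left _ _).trans (le_max_left _ _)
    have hE2 : ((n : ℝ) - 3) / ((n : ℝ) - 2) * (1 / M) ≤ expo n M := by
      rw [e1]; exact (le_max_right _ _).trans (le_max_left _ _)
    have hE0 : 0 ≤ expo n M := le_trans (by positivity) hE2
    obtain ⟨th, hth⟩ : ∃ th : ℝ, th = 1 / (n * M) := ⟨_, rfl⟩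
    have hth0 : 0 < th := by rw [hth]; positivity
    have hlth : 1 / M = n * th := by rw [hth]; field_simp
    rcases le_total (2 + ((n : ℝ) - 4) / (n * M))
        (((n : ℝ) - 1) / (n * M) - (1 / (n * M)) ^ (3 / 2 : ℝ) / (16 * n)) with h | h
    · have hE3 : 2 + ((n : ℝ) - 4) / n * (1 / M) ≤ expo n M := by
        rw [e2]
        refine le_trans ?_ (le_max_right _ _)
        rw [min_eq_left h]
      exact up hn hM hE0 (old hn hlam hE1 hE2 hE3) le_rfl hε
    · have hE3 : ((n : ℝ) - 1) / (n * M) - (1 / (n * M)) ^ (3 / 2 : ℝ) / (16 * n) ≤ expo n M := by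
        refine le_trans ?_ (le_max_right _ _)
        rw [min_eq_right h]
      rcases le_or_gt (4 * th) 3 with h4 | h4
      · obtain ⟨t, ht⟩ : ∃ t : ℝ, t = √th := ⟨_, rfl⟩
        have ht0 : 0 < t := by rw [ht]; exact Real.sqrt_pos.2 hth0
        have ht2 : t ^ 2 = th := by rw [ht]; exact Real.sq_sqrt hth0.le
        have ht3 : t ^ 3 = (1 / (n * M)) ^ (3 / 2 : ℝ) := by
          rw [← hth, ht, Real.sqrt_eq_rpow, ← Real.rpow_natCast, ← Real.rpow_mul hth0.le]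
          norm_num
        have eg : ((n : ℝ) - 1) / (n * M) - (1 / (n * M)) ^ (3 / 2 : ℝ) / (16 * n) =
            ((n : ℝ) - 1) * t ^ 2 - t ^ 3 / (16 * n) := by
          rw [← ht3, ht2, hth]; ring
        have hg0 : 0 ≤ ((n : ℝ) - 1) * t ^ 2 - t ^ 3 / (16 * n) := by
          have ht1 : t ≤ 1 := by nlinarith
          rw [sub_nonneg, div_le_iff₀ (by positivity)]
          have k1 : t ^ 3 ≤ t ^ 2 := by
            calc t ^ 3 = t ^ 2 * t := by ring
              _ ≤ t ^ 2 * 1 := mul_le_mul_of_nonneg_left ht1 (by positivity)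
              _ = t ^ 2 := mul_one _
          have k2 : (1 : ℝ) ≤ ((n : ℝ) - 1) * (16 * n) := by nlinarith
          have k3 : t ^ 2 * 1 ≤ t ^ 2 * (((n : ℝ) - 1) * (16 * n)) := mul_le_mul_of_nonneg_left k2 (by positivity)
          calc t ^ 3 ≤ t ^ 2 * 1 := by linarith
            _ ≤ _ := k3
            _ = ((n : ℝ) - 1) * t ^ 2 * (16 * n) := by ring
        rw [eg] at hE3
        refine up hn hM hg0 ?_ hE3 hε
        have hL : 1 / M = n * t ^ 2 := by rw [ht2, hlth]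
        rw [hL]
        exact new hn hg0 (Comb4.main Plp.main Size.main Num4.main n t hn ht0 (by rw [ht2]; exact h4))
      · have hE4 : 2 + ((n : ℝ) - 4) / n * (1 / M) ≤ expo n M := by
          refine le_trans ?_ hE1
          rw [hlth]
          have : ((n : ℝ) - 4) / n * (n * th) = ((n : ℝ) - 4) * th := by field_simp
          rw [this]
          linarith
        exact up hn hM hE0 (old hn hlam hE1 hE2 hE4) le_rfl hε
  · intro M hM hMr ε hε
    have hlam : 0 ≤ 1 / M := by positivity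
    obtain ⟨E, hE⟩ : ∃ E : ℝ, E = max (1 / M - 1) (((n : ℝ) - 3) / (((n : ℝ) - 2) * M)) := ⟨_, rfl⟩
    have hE1 : 1 / M - 1 ≤ E := by rw [hE]; exact le_max_left _ _
    have hE2 : ((n : ℝ) - 3) / ((n : ℝ) - 2) * (1 / M) ≤ E := by rw [e1, hE]; exact le_max_right _ _
    have hE0 : 0 ≤ E := le_trans (by positivity) hE2
    rw [← hE]
    suffices hB : BLK2 n (1 / M) E by
      obtain ⟨C, hC⟩ := up hn hM hE0 hB le_rfl hε
      exact ⟨C, fun X hX => (hC X hX).2⟩
    by_cases hM2 : M ≤ (3 * (n : ℝ) - 8) / (2 * n * ((n : ℝ) - 2))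
    · have a2 : 2 * n * ((n : ℝ) - 2) * M ≤ 3 * (n : ℝ) - 8 := by
        rw [le_div_iff₀ (by positivity)] at hM2
        linarith
      have b2 : 2 + ((n : ℝ) - 4) / n * (1 / M) ≤ ((n : ℝ) - 3) / ((n : ℝ) - 2) * (1 / M) := by
        rw [← sub_nonneg]
        have : ((n : ℝ) - 3) / ((n : ℝ) - 2) * (1 / M) - (2 + ((n : ℝ) - 4) / n * (1 / M)) =
            (3 * (n : ℝ) - 8 - 2 * n * ((n : ℝ) - 2) * M) / (n * ((n : ℝ) - 2) * M) := by
          field_simp
          ring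
        rw [this]
        exact div_nonneg (by linarith) (by positivity)
      exact old hn hlam hE1 hE2 (b2.trans hE2)
    · obtain ⟨h30, hM3⟩ : 30 ≤ n ∧ M ≤ ((n : ℝ) - 23) / 32 := by
        rcases hMr with h | h
        · exact h
        · exact absurd h.2 hM2
      have h30R : (30 : ℝ) ≤ n := by exact_mod_cast h30
      rw [not_le, div_lt_iff₀ (by positivity)] at hM2
      refine new hn hE0 (comb_of_comb3 (Comb3.main Plp.main Size.main Num.main) h30 ?_ ?_ hE2)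
      · rw [div_le_div_iff₀ (by linarith) hM]
        rw [le_div_iff₀ (by norm_num)] at hM3
        linarith
      · rw [div_le_iff₀ hM]
        nlinarith
  · intro M hM1 η hη hη2 hup ε hε
    have hM : 0 < M := lt_of_lt_of_le (by positivity) hM1
    have a1 : 1 ≤ ((n : ℝ) - 2) * M := by
      rw [div_le_iff₀ hn2] at hM1
      linarith
    obtain ⟨g, hg⟩ : ∃ g : ℝ, g = ((n : ℝ) - 3) / (((n : ℝ) - 2) * M) - η := ⟨_, rfl⟩
    have hg0 : 0 ≤ g := by rw [hg]; linarith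
    have hg1 : g < (n : ℝ) - 3 := by
      have : ((n : ℝ) - 3) / (((n : ℝ) - 2) * M) ≤ (n : ℝ) - 3 := div_le_self hn3.le a1
      rw [hg]; linarith
    obtain ⟨δ, hδ, a₀, h⟩ := barrier2 hn (u := 1 / M) (by positivity) hg0 hg1
      (fun X => (({x ∈ Exceptions n M X | NoVanishingSubsum x}).ncard : ℝ)) (by
        intro X F hF
        have hfin : ({x ∈ Exceptions n M X | NoVanishingSubsum x}).Finite :=
          (finite_exc M X).subset fun x hx => hx.1
        have hsub : (F : Set (Fin n → ℤ)) ⊆ {x ∈ Exceptions n M X | NoVanishingSubsum x} := by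
          intro x hx
          obtain ⟨⟨a1, a2, a3⟩, k2, k3, k4⟩ := hF x (by simpa using hx)
          refine ⟨⟨⟨a1, fun i j hij => Int.isCoprime_iff_gcd_eq_one.mp (a2 i j hij), a3⟩, k3, ?_⟩, k2⟩
          have h5 : (0 : ℝ) ≤ (rad x : ℝ) := by positivity
          have h6 : (0 : ℝ) ≤ (size x : ℝ) := by positivity
          calc (rad x : ℝ) ^ M < ((size x : ℝ) ^ (1 / M)) ^ M := Real.rpow_lt_rpow h5 k4 hM
            _ = size x := by rw [← Real.rpow_mul h6, one_div_mul_cancel hM.ne', Real.rpow_one]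
        have h7 := Set.ncard_le_ncard hsub hfin
        rw [Set.ncard_coe_finset] at h7
        exact_mod_cast h7) (by rw [hg]; exact hup) hε
    have e1 : g / ((n : ℝ) - 3) = 1 / (((n : ℝ) - 2) * M) - η / ((n : ℝ) - 3) := by
      rw [hg]
      field_simp
    have e2 : 1 / M - ((n : ℝ) - 2) * g / ((n : ℝ) - 3) = ((n : ℝ) - 2) / ((n : ℝ) - 3) * η := by
      rw [hg]
      field_simp
      ring
    rw [e1, e2] at h
    refine ⟨δ, hδ, a₀, fun a ha h' hh1 hh2 hh3 hh4 => ?_⟩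
    have := h a ha h' hh1 hh2 hh3 hh4
    have e : H42.SN.radN ((a : ℤ) * ((a : ℤ) + (h' : ℤ))) = ∏ p ∈ (a * (a + h')).primeFactors, p := by
      unfold H42.SN.radN
      have e1 : ((a : ℤ) * ((a : ℤ) + (h' : ℤ))).natAbs = a * (a + h') := by
        have : ((a : ℤ) * ((a : ℤ) + (h' : ℤ))) = ((a * (a + h') : ℕ) : ℤ) := by push_cast; ring
        rw [this, Int.natAbs_natCast]
      rw [e1]
    rw [e] at this
    exact this

end Pool.Agent.Results.MP_7ecdd4_nt.SharpUpToWeakAbc
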